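import Pool.Agent.U742.LC.Main
import Pool.Agent.U742.GR.Fin

/-!
Algebraic hyperbolicity modulo a proper closed subset for the closed subvarieties of the power value
varieties with simple generic points.
-/

set_option autoImplicit false

open FF Pool.Agent.W603.LV Pool.Agent.W602.GT Pool.Agent.Y190.BV Pool.Agent.Y190.SN
  Pool.Agent.Y190.AG
open Pool.Agent.U463.PG (SimpleOff curves_tfaeS)
open Pool.Agent.U742.GR (gm_of_genus line_of_gm)

namespace Pool.Agent.U742.LC

variable {k : Type} [Field k] [IsAlgClosed k] [CharZero k] {N n m w : ℕ} {ι : Type}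
  {K : Type} [Field K] [Algebra k K]

/-- For a constant `B` the degree of every morphism `f` from a smooth projective curve of genus `g`
to `{F = 0}` is at most `B max (2 g - 2, 0)`, unless the image of `f` is contained in a certain
closed subset that does not contain the variety with the generic point `y`. -/
def PseudoAlgHyp (F : ι → MvPolynomial (Fin (N + 1)) k) (y : Fin (N + 1) → K) : Prop :=
  ∃ G : MvPolynomial (Fin (N + 1)) k, IsForm G ∧ val y G ≠ 0 ∧ AlgHypOff F (fun _ : Unit => G)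

theorem line_of_alg {F : ι → MvPolynomial (Fin (N + 1)) k} {G : MvPolynomial (Fin (N + 1)) k}
    (hG : IsForm G) (h : AlgHypOff F (fun _ : Unit => G)) : LineOff F (fun _ : Unit => G) := by
  refine line_of_gm (fun _ => hG) (gm_of_genus ?_)
  obtain ⟨B, hB⟩ := h
  intro L _ _ _ hL f hf
  have h1 := hB L f hf
  rw [max_eq_right hL, mul_zero] at h1
  obtain ⟨l, hl⟩ := Function.ne_iff.1 hf.1
  have hl' : f l ≠ 0 := hl
  have h2 : ∀ j, ∃ c : k, f j / f l = algebraMap k L c := by
    intro j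
    by_cases hj : f j = 0
    · exact ⟨0, by rw [hj, zero_div, map_zero]⟩
    · exact Pool.Agent.W603.LV.const_of_hgt
        ((Pool.Agent.W603.CX.hgt_le_pht (k := k) f hj hl').trans h1)
  choose x hx using h2
  exact ⟨f l, x, fun i => by rw [← hx, mul_div_cancel₀ _ hl']⟩

/-- **Algebraic hyperbolicity modulo a proper closed subset.** -/
theorem alg (hm : 2 ≤ m) (hN : 4 * n + (n + 1) ^ 2 < 2 * (N + 1)) {a : Fin (N + 1) → k}
    (ha : Function.Injective a) {F : ι → MvPolynomial (Fin (N + 1)) k}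
    (hF : ∀ e, IsForm (F e)) (hV : Cone F ⊆ PowVal a n m) {y : Fin (N + 1) → K}
    (hy : SubVar F K w y)
    (hgen : ∀ G : MvPolynomial (Fin (N + 1)) k, IsForm G →
      (val y G = 0 ↔ ∀ x ∈ Cone F, val x G = 0))
    (h : n + 3 ≤ w + 2 * m ∨ ∃ H : Polynomial K, H.natDegree ≤ n ∧
      (∀ i, y i ^ m = H.eval (algebraMap k K (a i))) ∧ ∀ q, q ^ m ∣ H → q.natDegree ≤ 1) :
    [GeneralType k K w, PseudoAlgHyp F y, ¬ Ruled k K].TFAE := by
  classical
  have hn : n ≤ N := by nlinarith
  have hN4 : 4 * n < N + 1 := by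
    have h1 : 4 * n ≤ (n + 1) ^ 2 := by
      rcases Nat.eq_zero_or_pos n with rfl | h2
      · norm_num
      · obtain ⟨r, rfl⟩ : ∃ r, n = r + 1 := ⟨n - 1, by omega⟩
        nlinarith [Nat.zero_le (r * r)]
    omega
  have hchK : CharZero K := charZero_of_injective_algebraMap (algebraMap k K).injective
  have hsub : Cone F ⊆ Cone (buchi a n m) := by
    rw [cone_buchi ha hn]
    exact hV
  have hyb := sub_ext hsub hy.ne hy.mem
  have hs : Simple m (intp a hn (fun i => y i ^ m)) := by
    rcases h with h | ⟨H, hH, hyH, hs⟩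
    · exact simple_of_dim hm hn ha hy.ne hyb hy.gen hy.dim h
    · rw [intp_eq ha hn hH hyH]
      exact hs
  have ht := lang hm hN ha hF hV hy hgen h
  tfae_have 1 ↔ 3 := ht.out 0 4
  tfae_have 1 → 2 := by
    intro hgt
    have hSp : SpLine F ≠ Cone F := (ht.out 0 3).1 hgt
    obtain ⟨i0, hi0⟩ := Function.ne_iff.1 hy.ne
    have hH0 : intp a hn (fun i => y i ^ m) ≠ 0 := by
      intro h0
      have h1 := intp_eval ha hn m hyb i0
      rw [h0, Polynomial.eval_zero] at h1
      exact hi0 (eq_zero_of_pow_eq_zero h1.symm)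
    obtain ⟨G1, hG1, hyG1, hG1s⟩ := exists_simple (by omega) hn hi0 hy.gen hH0 hs ∅
    obtain ⟨x, hx, hxn⟩ : ∃ x ∈ Cone F, x ∉ SpLine F := by
      by_contra hcon
      push Not at hcon
      exact hSp (Set.Subset.antisymm (fun x hx => hx.1) hcon)
    obtain ⟨G2, hG2, hG2L, hxG2⟩ : ∃ G2 : MvPolynomial (Fin (N + 1)) k, IsForm G2 ∧
        (∀ p q, Line F p q → ∀ c c' : k, val (c • p + c' • q) G2 = 0) ∧ val x G2 ≠ 0 := by
      by_contra hcon
      push Not at hcon
      exact hxn ⟨hx, fun G hG h => hcon G hG h⟩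
    have hyG2 : val y G2 ≠ 0 := fun h => hxG2 ((hgen G2 hG2).1 h x hx)
    have hform : IsForm (G1 * G2) := by
      obtain ⟨d1, hd1⟩ := hG1
      obtain ⟨d2, hd2⟩ := hG2
      exact ⟨d1 + d2, hd1.mul hd2⟩
    have hmul : ∀ {M : Type} [Field M] [Algebra k M] (v : Fin (N + 1) → M),
        val v (G1 * G2) = val v G1 * val v G2 := fun v => by
      unfold Pool.Agent.W602.GT.val
      rw [map_mul]
    refine ⟨G1 * G2, hform, by rw [hmul]; exact mul_ne_zero hyG1 hyG2, ?_⟩
    have hSO : SimpleOff a n m F (fun _ : Unit => G1 * G2) := by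
      rintro x hx ⟨_, hxG⟩
      rw [hmul] at hxG
      obtain ⟨-, hsx, -⟩ := hG1s k x (fun G' hG' h0 => (hgen G' hG').1 h0 x hx)
        (left_ne_zero_of_mul hxG)
      have hxb := sub_ext hsub hx.1 hx.2
      exact ⟨_, intp_natDegree ha hn _, fun i => (intp_eval ha hn m hxb i).symm, hsx⟩
    have hLO : LineOff F (fun _ : Unit => G1 * G2) := by
      intro p q hpq c c' _
      rw [hmul, hG2L p q hpq c c', mul_zero]
    have hT := curves_tfaeS (G := fun _ : Unit => G1 * G2) hm hN4 ha hF (fun _ => hform)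
      (Or.inr ⟨hV, hSO⟩)
    exact (hT.out 4 0).1 hLO
  tfae_have 2 → 1 := by
    rintro ⟨G, hG, hyG, hA⟩
    have hL := line_of_alg hG hA
    refine (ht.out 3 0).1 ?_
    intro heq
    apply hyG
    rw [hgen G hG]
    intro x hx
    rw [← heq] at hx
    exact hx.2 G hG fun p q hpq c c' => hL p q hpq c c' ()
  tfae_finish

end Pool.Agent.U742.LC
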