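import Pool.Agent.Y190.SN.Lang

/-!
Closed subvarieties of small codimension of the varieties of the vectors whose powers are the values
of a polynomial have simple generic points.
-/

set_option autoImplicit false

open Polynomial FF Pool.Agent.W603.LV Pool.Agent.W602.GT Pool.Agent.Y190.BV Pool.Agent.Y190.SN

namespace Pool.Agent.U742.LC

variable {k : Type} [Field k] {K : Type} [Field K] [Algebra k K] {N n m w : ℕ}

/-- **The dimension of the varieties of multiples of `m`-th powers.** -/
theorem dim_le (hm : 2 ≤ m) {a : Fin (N + 1) → k} {y : Fin (N + 1) → K}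
    (hgen : coords k y = ⊤) (hdim : Algebra.trdeg k K = w) {q G : K[X]} (hq : q ≠ 0)
    (hG : G ≠ 0) (hy : ∀ i, y i ^ m = (q ^ m * G).eval (algebraMap k K (a i))) :
    w ≤ q.natDegree + G.natDegree := by
  classical
  have hlq : q.leadingCoeff ≠ 0 := leadingCoeff_ne_zero.2 hq
  have hlG : G.leadingCoeff ≠ 0 := leadingCoeff_ne_zero.2 hG
  let s : Fin q.natDegree ⊕ Fin G.natDegree → K :=
    Sum.elim (fun j => q.coeff j / q.leadingCoeff) (fun j => G.coeff j / G.leadingCoeff)
  set F := IntermediateField.adjoin k (Set.range s) with hF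
  have hmem : ∀ z, s z ∈ F := fun z => IntermediateField.subset_adjoin k _ ⟨z, rfl⟩
  have hev : ∀ (P : K[X]), P ≠ 0 → (∀ j < P.natDegree, P.coeff j / P.leadingCoeff ∈ F) →
      ∀ c : k, P.eval (algebraMap k K c) / P.leadingCoeff ∈ F := by
    intro P hP hj c
    have hl : P.leadingCoeff ≠ 0 := leadingCoeff_ne_zero.2 hP
    rw [eval_eq_sum_range, Finset.sum_div]
    refine F.sum_mem fun j hjr => ?_
    have e : P.coeff j * algebraMap k K c ^ j / P.leadingCoeff =
        (P.coeff j / P.leadingCoeff) * algebraMap k K (c ^ j) := by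
      rw [map_pow]; ring
    rw [e]
    refine F.mul_mem ?_ (F.algebraMap_mem _)
    rcases Nat.lt_or_ge j P.natDegree with h1 | h1
    · exact hj j h1
    · have h2 : j = P.natDegree := by
        have := Finset.mem_range.1 hjr
        omega
      rw [h2, coeff_natDegree, div_self hl]
      exact F.one_mem
  have hvq := hev q hq fun j hj => hmem (Sum.inl ⟨j, hj⟩)
  have hvG := hev G hG fun j hj => hmem (Sum.inr ⟨j, hj⟩)
  have hle : coords k y ≤ (algebraicClosure F K).restrictScalars k := by
    conv_lhs => unfold coords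
    rw [IntermediateField.adjoin_le_iff]
    rintro _ ⟨i, j, hj, rfl⟩
    rw [SetLike.mem_coe, IntermediateField.mem_restrictScalars, mem_algebraicClosure_iff]
    refine IsAlgebraic.of_pow (n := m) (by omega) ?_
    have h1 : (y i / y j) ^ m ∈ F := by
      have h2 : (y i / y j) ^ m =
          ((q.eval (algebraMap k K (a i)) / q.leadingCoeff) ^ m *
            (G.eval (algebraMap k K (a i)) / G.leadingCoeff)) /
          ((q.eval (algebraMap k K (a j)) / q.leadingCoeff) ^ m *
            (G.eval (algebraMap k K (a j)) / G.leadingCoeff)) := by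
        rw [div_pow, hy, hy, eval_mul, eval_mul, eval_pow, eval_pow, div_pow, div_pow,
          div_mul_div_comm, div_mul_div_comm, div_div_div_cancel_right₀]
        exact mul_ne_zero (pow_ne_zero _ hlq) hlG
      rw [h2]
      exact F.div_mem (F.mul_mem (pow_mem (hvq _) _) (hvG _))
        (F.mul_mem (pow_mem (hvq _) _) (hvG _))
    exact isAlgebraic_algebraMap (⟨_, h1⟩ : F)
  have halg : Algebra.IsAlgebraic (Algebra.adjoin k (Set.range s)) K := by
    rw [← IntermediateField.isAlgebraic_adjoin_iff_top]
    refine ⟨fun u => ?_⟩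
    have h1 : u ∈ (algebraicClosure F K).restrictScalars k := hle (by rw [hgen]; trivial)
    rw [IntermediateField.mem_restrictScalars, mem_algebraicClosure_iff] at h1
    exact h1
  have h2 := Algebra.IsAlgebraic.trdeg_le_cardinalMk k (Set.range s)
  rw [hdim] at h2
  have h3 : Cardinal.mk (Set.range s) ≤ ((q.natDegree + G.natDegree : ℕ) : Cardinal) := by
    refine Cardinal.mk_range_le.trans ?_
    rw [Cardinal.mk_fintype, Fintype.card_sum, Fintype.card_fin, Fintype.card_fin]
  exact_mod_cast h2.trans h3

/-- **Small codimension.** -/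
theorem simple_of_dim (hm : 2 ≤ m) (hn : n ≤ N) {a : Fin (N + 1) → k}
    (ha : Function.Injective a) {y : Fin (N + 1) → K} (hy0 : y ≠ 0)
    (hyb : ∀ l : Rel a n, val y (buchi a n m l) = 0) (hgen : coords k y = ⊤)
    (hdim : Algebra.trdeg k K = w) (hw : n + 3 ≤ w + 2 * m) :
    Simple m (intp a hn (fun i => y i ^ m)) := by
  classical
  set H := intp a hn (fun i => y i ^ m) with hHd
  have hev : ∀ i, H.eval (algebraMap k K (a i)) = y i ^ m := intp_eval ha hn m hyb
  have hHdeg : H.natDegree ≤ n := intp_natDegree ha hn _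
  have hH0 : H ≠ 0 := by
    intro h0
    apply hy0
    funext i
    have h1 := hev i
    rw [h0, eval_zero] at h1
    exact eq_zero_of_pow_eq_zero h1.symm
  intro q hq
  by_contra hdeg
  push Not at hdeg
  obtain ⟨G, hG⟩ := hq
  have hq0 : q ≠ 0 := by
    rintro rfl
    rw [natDegree_zero] at hdeg
    omega
  have hG0 : G ≠ 0 := by
    rintro rfl
    rw [mul_zero] at hG
    exact hH0 hG
  have h1 := dim_le (a := a) hm hgen hdim hq0 hG0 (fun i => by rw [← hG, hev])
  have h2 : H.natDegree = m * q.natDegree + G.natDegree := by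
    rw [hG, natDegree_mul (pow_ne_zero _ hq0) hG0, natDegree_pow]
  obtain ⟨m', rfl⟩ : ∃ m', m = m' + 1 := ⟨m - 1, by omega⟩
  have h3 : m' * 2 ≤ m' * q.natDegree := Nat.mul_le_mul_left _ hdeg
  have h4 : (m' + 1) * q.natDegree = m' * q.natDegree + q.natDegree := by ring
  omega

end Pool.Agent.U742.LC
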