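import Pool.Agent.U742.LC.Dim
import Pool.Agent.Y190.BV.Cng

/-!
Lang's conjecture on special sets for the closed subvarieties of small codimension of the power value
varieties.
-/

set_option autoImplicit false

open FF Pool.Agent.W603.LV Pool.Agent.W602.GT Pool.Agent.Y190.BV Pool.Agent.Y190.SN

namespace Pool.Agent.U742.LC

variable {k : Type} [Field k] [IsAlgClosed k] [CharZero k] {N n m w : ℕ} {ι : Type}
  {K : Type} [Field K] [Algebra k K]

/-- **Lang's conjecture.** -/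
theorem lang (hm : 2 ≤ m) (hN : 4 * n + (n + 1) ^ 2 < 2 * (N + 1)) {a : Fin (N + 1) → k}
    (ha : Function.Injective a) {F : ι → MvPolynomial (Fin (N + 1)) k}
    (hF : ∀ e, IsForm (F e)) (hV : Cone F ⊆ PowVal a n m) {y : Fin (N + 1) → K}
    (hy : SubVar F K w y)
    (hgen : ∀ G : MvPolynomial (Fin (N + 1)) k, IsForm G →
      (val y G = 0 ↔ ∀ x ∈ Cone F, val x G = 0))
    (h : n + 3 ≤ w + 2 * m ∨ ∃ H : Polynomial K, H.natDegree ≤ n ∧
      (∀ i, y i ^ m = H.eval (algebraMap k K (a i))) ∧ ∀ q, q ^ m ∣ H → q.natDegree ≤ 1) :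
    [GeneralType k K w, SpAlg F ≠ Cone F, SpGm F ≠ Cone F, SpLine F ≠ Cone F, ¬ Ruled k K,
      KodGe k K w (fun _ => False) 0, Psef k K w (fun _ => False)].TFAE := by
  have hn : n ≤ N := by nlinarith
  have hsub : Cone F ⊆ Cone (buchi a n m) := by
    rw [cone_buchi ha hn]
    exact hV
  have hyb := sub_ext hsub hy.ne hy.mem
  have hs : Simple m (intp a hn (fun i => y i ^ m)) := by
    rcases h with h | ⟨H, hH, hyH, hs⟩
    · exact simple_of_dim hm hn ha hy.ne hyb hy.gen hy.dim h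
    · rw [intp_eq ha hn hH hyH]
      exact hs
  have ht := lang_simple hm hn hN ha hF hsub hy hs hgen
  have h71 : ¬ GeneralType k K w ↔ ¬ KodGe k K w (fun _ => False) 0 := ht.out 6 0
  have h72 : ¬ GeneralType k K w ↔ ¬ Psef k K w (fun _ => False) := ht.out 6 1
  have h73 : ¬ GeneralType k K w ↔ Ruled k K := ht.out 6 2
  have h74 : ¬ GeneralType k K w ↔ SpLine F = Cone F := ht.out 6 3
  have h75 : ¬ GeneralType k K w ↔ SpGm F = Cone F := ht.out 6 4
  have h76 : ¬ GeneralType k K w ↔ SpAlg F = Cone F := ht.out 6 5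
  tfae_have 1 ↔ 2 := by rw [Ne, ← h76, not_not]
  tfae_have 1 ↔ 3 := by rw [Ne, ← h75, not_not]
  tfae_have 1 ↔ 4 := by rw [Ne, ← h74, not_not]
  tfae_have 1 ↔ 5 := by rw [← h73, not_not]
  tfae_have 1 ↔ 6 := not_iff_not.1 h71
  tfae_have 1 ↔ 7 := not_iff_not.1 h72
  tfae_finish

end Pool.Agent.U742.LC
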